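import Pool.Agent.Y481.DR.Defs

/-!
# Continuity of the quantum trace at the root of unity
-/

set_option autoImplicit false

namespace Pool.Agent.Y317.DR

open Finset Filter Topology Pool.Agent.Y472
open Pool.Agent.Y481.DR

/-- continuous families of vectors -/
def CV2 (x : ℂ → V2) : Prop := ∀ a b, ContinuousAt (fun l => x l a b) (-1)

/-- continuous families of vectors -/
def CV3 (x : ℂ → V3) : Prop := ∀ a b c, ContinuousAt (fun l => x l a b c) (-1)

/-- continuous families of operators -/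
def CO2 (A : ℂ → V2 →ₗ[ℂ] V2) : Prop := ∀ x : ℂ → V2, CV2 x → CV2 fun l => A l (x l)

/-- continuous families of operators -/
def CO3 (A : ℂ → V3 →ₗ[ℂ] V3) : Prop := ∀ x : ℂ → V3, CV3 x → CV3 fun l => A l (x l)

theorem one_ne : (-1 : ℂ) ≠ 0 := by norm_num

variable {w : ℂ}

theorem c_lb (hw : w ≠ 0) (k : ℤ) : ContinuousAt (fun l => lb w l k) (-1) := by
  have h1 : ContinuousAt (fun l : ℂ => l * w ^ k) (-1) := by fun_prop
  exact h1.sub (h1.inv₀ (mul_ne_zero one_ne (zpow_ne_zero _ hw)))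

theorem c_KK (a : ℕ) : ContinuousAt (fun l => KK w l a) (-1) := by
  unfold KK
  fun_prop

theorem KK_ne (hw : w ≠ 0) (a : ℕ) : KK w (-1) a ≠ 0 :=
  mul_ne_zero one_ne (zpow_ne_zero _ hw)

theorem c_E2 (hw : w ≠ 0) : CO2 (E2 w) := fun _ hx a b =>
  (((c_lb hw _).mul (c_KK b)).mul (hx (a + 1) b)).add ((c_lb hw _).mul (hx a (b + 1)))

theorem c_F2 (hw : w ≠ 0) : CO2 (F2 w) := fun _ hx a b =>
  (continuousAt_const.mul (hx (a - 1) b)).add
    ((((c_KK a).inv₀ (KK_ne hw a)).mul continuousAt_const).mul (hx a (b - 1)))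

theorem c_cas (hw : w ≠ 0) : CO2 (cas w) := fun x hx a b => by
  have h1 : ContinuousAt (fun l => w * KK w l a * KK w l b) (-1) :=
    (continuousAt_const.mul (c_KK a)).mul (c_KK b)
  exact (c_F2 hw _ (c_E2 hw x hx) a b).add
    ((h1.add (h1.inv₀ (mul_ne_zero (mul_ne_zero hw (KK_ne hw a)) (KK_ne hw b)))).mul (hx a b))

theorem c_prod (hw : w ≠ 0) (n : ℕ) (f : ℕ → ℤ) :
    ContinuousAt (fun l => ∏ t ∈ range n, lb w l (f t)) (-1) :=
  tendsto_finsetProd _ fun t _ => c_lb hw (f t)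

theorem c_sum (n : ℕ) (f : ℕ → ℂ → ℂ) (hf : ∀ t, ContinuousAt (f t) (-1)) :
    ContinuousAt (fun l => ∑ t ∈ range n, f t l) (-1) :=
  tendsto_finsetSum _ fun t _ => hf t

theorem c_zpow (k : ℤ) : ContinuousAt (fun l : ℂ => l ^ k) (-1) :=
  continuousAt_zpow₀ _ _ (Or.inl one_ne)

theorem c_sg (hw : w ≠ 0) : CO2 (sg w) := fun x hx a b =>
  ((c_zpow _).mul continuousAt_const).mul
    (c_sum (a + 1) (fun n l => w ^ (n * (n - 1) / 2) * qb w a n *
      (∏ t ∈ range n, lb w l (-(b : ℤ) - 1 - t)) * x l (b + n) (a - n)) fun n =>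
      (continuousAt_const.mul (c_prod hw n fun t => -(b : ℤ) - 1 - t)).mul (hx (b + n) (a - n)))

theorem c_sn (hw : w ≠ 0) : CO2 (sn w) := fun x hx a b =>
  ((c_zpow _).mul continuousAt_const).mul
    (c_sum (b + 1) (fun n l => (-1) ^ n *
      w ^ (-((n * (n - 1) / 2 : ℕ) : ℤ) - 2 * ((b : ℤ) - n) * ((a : ℤ) + n)) * qb w b n *
      (∏ t ∈ range n, lb w l (-(a : ℤ) - 1 - t)) * x l (b - n) (a + n)) fun n =>
      (continuousAt_const.mul (c_prod hw n fun t => -(a : ℤ) - 1 - t)).mul (hx (b - n) (a + n)))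

theorem c_L12 {A : ℂ → V2 →ₗ[ℂ] V2} (hA : CO2 A) : CO3 fun l => L12 (A l) := fun x hx a b c =>
  hA (fun l a b => x l a b c) (fun a b => hx a b c) a b

theorem c_L23 {A : ℂ → V2 →ₗ[ℂ] V2} (hA : CO2 A) : CO3 fun l => L23 (A l) := fun x hx a b c =>
  hA (fun l => x l a) (fun b c => hx a b c) b c

theorem c_mul2 {A B : ℂ → V2 →ₗ[ℂ] V2} (hA : CO2 A) (hB : CO2 B) : CO2 fun l => A l * B l :=
  fun x hx => hA _ (hB x hx)

theorem c_mul3 {A B : ℂ → V3 →ₗ[ℂ] V3} (hA : CO3 A) (hB : CO3 B) : CO3 fun l => A l * B l :=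
  fun x hx => hA _ (hB x hx)

theorem c_one2 : CO2 fun _ => 1 := fun _ hx => hx

theorem c_one3 : CO3 fun _ => 1 := fun _ hx => hx

theorem c_pow2 {A : ℂ → V2 →ₗ[ℂ] V2} (hA : CO2 A) (n : ℕ) : CO2 fun l => A l ^ n := by
  induction n with
  | zero => simpa using c_one2
  | succ n ih =>
    simp only [pow_succ]
    exact c_mul2 ih hA

theorem c_pow3 {A : ℂ → V3 →ₗ[ℂ] V3} (hA : CO3 A) (n : ℕ) : CO3 fun l => A l ^ n := by
  induction n with
  | zero => simpa using c_one3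
  | succ n ih =>
    simp only [pow_succ]
    exact c_mul3 ih hA

theorem c_aeval {A : ℂ → V2 →ₗ[ℂ] V2} (hA : CO2 A) (P : Polynomial ℂ) :
    CO2 fun l => Polynomial.aeval (A l) P := by
  intro x hx a b
  have e : (fun l => Polynomial.aeval (A l) P (x l) a b) =
      fun l => ∑ i ∈ range (P.natDegree + 1), P.coeff i * ((A l ^ i) (x l) a b) := by
    funext l
    rw [Polynomial.aeval_eq_sum_range]
    simp only [LinearMap.sum_apply, LinearMap.smul_apply, Finset.sum_apply, Pi.smul_apply,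
      smul_eq_mul]
  show ContinuousAt (fun l => Polynomial.aeval (A l) P (x l) a b) (-1)
  rw [e]
  exact c_sum _ (fun i l => P.coeff i * ((A l ^ i) (x l) a b)) fun i =>
    continuousAt_const.mul (c_pow2 hA i x hx a b)

theorem c_opP (hw : w ≠ 0) (ps : List (Polynomial ℂ × Polynomial ℂ)) :
    CO3 fun l => opP w l ps := by
  induction ps with
  | nil => exact c_one3
  | cons p ps ih =>
    have e : (fun l => opP w l (p :: ps)) = fun l => L12 (Polynomial.aeval (cas w l) p.1) *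
        L23 (Polynomial.aeval (cas w l) p.2) * opP w l ps := by
      funext l
      rw [opP, List.map_cons, List.prod_cons]
      rfl
    rw [e]
    exact c_mul3 (c_mul3 (c_L12 (c_aeval (c_cas hw) p.1)) (c_L23 (c_aeval (c_cas hw) p.2))) ih

theorem c_fullt (hw : w ≠ 0) (m : ℤ) : CO3 fun l => fullt w l m := by
  by_cases h : 0 ≤ m
  · simp only [fullt, if_pos h]
    have h1 := c_L12 (c_sg hw)
    have h2 := c_L23 (c_sg hw)
    exact c_pow3 (c_mul3 (c_mul3 (c_mul3 (c_mul3 (c_mul3 h1 h2) h1) h1) h2) h1) _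
  · simp only [fullt, if_neg h]
    have h1 := c_L12 (c_sn hw)
    have h2 := c_L23 (c_sn hw)
    exact c_pow3 (c_mul3 (c_mul3 (c_mul3 (c_mul3 (c_mul3 h1 h2) h1) h1) h2) h1) _

theorem c_JP (hw : w ≠ 0) (N : ℕ) (m : ℤ) (ps : List (Polynomial ℂ × Polynomial ℂ)) :
    ContinuousAt (fun l => JP N w l m ps) (-1) := by
  refine c_sum N (fun q l => ∑ s ∈ range N, KK w l q * KK w l s *
    (fullt w l m * opP w l ps) (io (dl q s)) 0 q s) fun q => ?_
  refine c_sum N (fun s l => KK w l q * KK w l s *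
    (fullt w l m * opP w l ps) (io (dl q s)) 0 q s) fun s => ?_
  exact ((c_KK q).mul (c_KK s)).mul (c_mul3 (c_fullt hw m) (c_opP hw ps) (fun _ => io (dl q s))
    (fun _ _ _ => continuousAt_const) 0 q s)

end Pool.Agent.Y317.DR
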