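import Pool.Agent.Y317.DR.Exa
import Pool.Agent.Y317.DR.Exb
import Pool.Agent.Y195.CB.JLX

/-!
# The exact formula at the root of unity for polynomials of the Casimir operator

Adapted from `Pool.Agent.Y967.CB` (task EXF of project CB3).
-/

set_option autoImplicit false

namespace Pool.Agent.Y317.DR

open Finset Filter Topology Pool.Agent.Y472 Pool.Agent.H550R3.Jones
open Pool.Agent.W711.HT hiding XX
open Pool.Agent.Y481.DR
open Pool.Agent.Y967.CB (PH PH_zero PH_diff prod_diff wE_diff chi vN_ne vN_pow trace_split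
  smul_list diff_list diff_mul diff_trace pI_add pI_high pH_sq ph_zero diag_mul_diag_apply
  ph_eq ph_eq' cb_eq cb_eq' ta_eq ta_eq' kap PHc chi_zero chi_deriv sum_odd gf gf_zero gf_deriv
  tendsto_real cb_ne norm_vN kap_diff kap_norm)
open scoped Real

theorem norm_CC (ls : List (PV × PV)) :
    ‖CC ls‖ = (ls.map fun d => ‖d.1.2.2‖ * ‖d.2.2.2‖).prod := by
  induction ls with
  | nil => simp [CC]
  | cons d ls ih =>
    have e : CC (d :: ls) = d.1.2.2 * d.2.2.2 * CC ls := by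
      rw [CC, List.map_cons, List.prod_cons]
      rfl
    rw [e, norm_mul, norm_mul, ih, List.map_cons, List.prod_cons]

theorem ev_list {α β : Type*} (F : Filter β) (P : α → β → Prop) (ls : List α)
    (h : ∀ x ∈ ls, ∀ᶠ ε in F, P x ε) : ∀ᶠ ε in F, ∀ x ∈ ls, P x ε := by
  induction ls with
  | nil => simp
  | cons x ls ih =>
    filter_upwards [h x List.mem_cons_self, ih fun d hd => h d (List.mem_cons_of_mem _ hd)]
      with ε h1 h2 y hy
    rcases List.mem_cons.mp hy with rfl | hy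
    · exact h1
    · exact h2 y hy

theorem exp : S_EXP := by
  intro hTRP N ls m hN _ hGD
  have hG' : ∀ (a : PV) (i j : ℕ), ∃ G : ℂ → ℂ, (i ≤ j → j < N → (DifferentiableAt ℂ G 0 ∧
      G 0 = a.2.2 * cV N a.2.1 i j)) ∧
      (GDP N a.1 (fun i j => a.2.2 * cV N a.2.1 i j) → i ≤ j → j < N →
        ∀ᶠ ε in 𝓝[≠] (0 : ℂ), G ε = gdP (vN N) (-Complex.exp ε) a.1 i j) := by
    intro a i j
    by_cases h : (i ≤ j ∧ j < N) ∧ GDP N a.1 (fun i j => a.2.2 * cV N a.2.1 i j)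
    · obtain ⟨G, h1, h2, h3⟩ := h.2 i j h.1.1 h.1.2
      exact ⟨G, fun _ _ => ⟨h1, h2⟩, fun _ _ _ => h3⟩
    · refine ⟨fun _ => a.2.2 * cV N a.2.1 i j, fun _ _ => ⟨differentiableAt_const _, rfl⟩,
        fun h1 h2 h3 => absurd ⟨⟨h2, h3⟩, h1⟩ h⟩
  choose G hGs hGe using hG'
  have hGd : ∀ a i j, i ≤ j → j < N → DifferentiableAt ℂ (G a i j) 0 :=
    fun a i j h1 h2 => (hGs a i j h1 h2).1
  have hG0 : ∀ a i j, i ≤ j → j < N → G a i j 0 = a.2.2 * cV N a.2.1 i j :=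
    fun a i j h1 h2 => (hGs a i j h1 h2).2
  have hRt : Rt N (vN N) := Pool.Agent.Y195.CB.rtv N hN
  have hv : vN N ≠ 0 := vN_ne N
  -- the values of the polynomial
  have hJ : Tendsto (fun ε : ℂ => JP N (vN N) (-Complex.exp ε) m (pls ls)) (𝓝 0)
      (𝓝 (JP N (vN N) (-1) m (pls ls))) := by
    have h1 : Tendsto (fun ε : ℂ => -Complex.exp ε) (𝓝 0) (𝓝 (-1)) := by
      have h2 : Tendsto (fun ε : ℂ => -Complex.exp ε) (𝓝 0) (𝓝 (-Complex.exp 0)) :=
        (Complex.continuous_exp.tendsto 0).neg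
      rwa [Complex.exp_zero] at h2
    exact (c_JP hv N m (pls ls)).tendsto.comp h1
  -- the sum is equal to its continuation
  have hev : ∀ᶠ ε in 𝓝[≠] (0 : ℂ), ∀ x ∈ ls, ∀ i j : ℕ, i ≤ j → j < N →
      G x.1 i j ε = gdP (vN N) (-Complex.exp ε) x.1.1 i j ∧
      G x.2 i j ε = gdP (vN N) (-Complex.exp ε) x.2.1 i j := by
    have h0 : ∀ x ∈ ls, ∀ᶠ ε in 𝓝[≠] (0 : ℂ), ∀ j ∈ range N, ∀ i ∈ range (j + 1),
        G x.1 i j ε = gdP (vN N) (-Complex.exp ε) x.1.1 i j ∧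
        G x.2 i j ε = gdP (vN N) (-Complex.exp ε) x.2.1 i j := by
      intro x hx
      rw [Filter.eventually_all_finset]
      intro j hj
      rw [Filter.eventually_all_finset]
      intro i hi
      have hj' := Finset.mem_range.mp hj
      have hi' : i ≤ j := by
        have := Finset.mem_range.mp hi
        omega
      exact (hGe x.1 i j (hGD x hx).1 hi' hj').and (hGe x.2 i j (hGD x hx).2 hi' hj')
    have h1 : ∀ᶠ ε in 𝓝[≠] (0 : ℂ), ∀ x ∈ ls, ∀ j ∈ range N, ∀ i ∈ range (j + 1),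
        G x.1 i j ε = gdP (vN N) (-Complex.exp ε) x.1.1 i j ∧
        G x.2 i j ε = gdP (vN N) (-Complex.exp ε) x.2.1 i j := ev_list _ _ _ h0
    filter_upwards [h1] with ε hε x hx i j hij hj
    exact hε x hx j (Finset.mem_range.mpr hj) i (Finset.mem_range.mpr (by omega))
  have hK : ∀ᶠ ε : ℝ in 𝓝[≠] 0, JP N (vN N) (-Complex.exp (ε : ℂ)) m (pls ls) *
      gf N (ε : ℂ) = -(2 * Complex.I) * (kap N m (ε : ℂ) * SS N G ls m (ε : ℂ)) := by
    filter_upwards [tendsto_real.eventually hev, self_mem_nhdsWithin] with ε hε h0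
    have hε0 : ε ≠ 0 := h0
    have hn : ‖-Complex.exp (ε : ℂ)‖ = Real.exp ε := by
      rw [norm_neg, Complex.norm_exp, Complex.ofReal_re]
    have hn1 : ‖-Complex.exp (ε : ℂ)‖ ≠ 1 := by
      rw [hn]
      intro h
      exact hε0 ((Real.exp_eq_one_iff ε).mp h)
    have hl0 : -Complex.exp (ε : ℂ) ≠ 0 := neg_ne_zero.mpr (Complex.exp_ne_zero _)
    have hGl : Gl (-Complex.exp (ε : ℂ)) := ⟨hl0, hn1⟩
    have hT := hTRP N (vN N) (-Complex.exp (ε : ℂ)) hRt hGl (pls ls) m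
    rw [sum_eq N hN G ls m (ε : ℂ) hε] at hT
    rw [hT, gf, SS]
    have hpow : ∀ k : ℕ, k ≠ 0 → cb ((-Complex.exp (ε : ℂ)) ^ k) ≠ 0 := by
      intro k hk
      refine cb_ne (pow_ne_zero _ hl0) ?_
      rw [norm_pow]
      intro h
      exact hn1 ((pow_eq_one_iff_of_nonneg (norm_nonneg _) hk).mp h)
    have hcl : cb (-Complex.exp (ε : ℂ)) ≠ 0 := cb_ne hl0 hn1
    have hcy : cb ((-Complex.exp (ε : ℂ)) ^ N) ≠ 0 := hpow N (by omega)
    have hc3 : cb ((-Complex.exp (ε : ℂ)) ^ (3 * N)) ≠ 0 := hpow (3 * N) (by omega)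
    have hy0 : (-Complex.exp (ε : ℂ)) ^ N ≠ 0 := pow_ne_zero _ hl0
    have e2 : (-Complex.exp (ε : ℂ)) ^ (2 * N) = ((-Complex.exp (ε : ℂ)) ^ N) ^ 2 := by
      rw [← pow_mul]; congr 1; ring
    have e3 : cb ((-Complex.exp (ε : ℂ)) ^ (3 * N)) = cb ((-Complex.exp (ε : ℂ)) ^ N) *
        (((-Complex.exp (ε : ℂ)) ^ N) ^ 2 + 1 + (((-Complex.exp (ε : ℂ)) ^ N) ^ 2)⁻¹) := by
      have : (-Complex.exp (ε : ℂ)) ^ (3 * N) = ((-Complex.exp (ε : ℂ)) ^ N) ^ 3 := by
        rw [← pow_mul]; congr 1; ring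
      rw [this, cb, cb]
      field_simp
      ring
    rw [e3] at hc3
    have hq := right_ne_zero_of_mul hc3
    rw [e2, e3]
    generalize (-Complex.exp (ε : ℂ)) ^ N = y at *
    generalize cb (-Complex.exp (ε : ℂ)) = cl at *
    generalize (∑ p ∈ range N, (wE N m (chi N p ε) * Te N G ls ε (chi N p ε) +
        wE N m (chi N p ε) * He N G ls p ε (chi N p ε) *
          (Complex.exp (-6 * m * N * ε) - 1))) = tot at *
    generalize y ^ 2 + 1 + (y ^ 2)⁻¹ = q at *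
    generalize cb y = cy at *
    field_simp
  -- the derivative
  have hS := SS_deriv hN hGd hG0 ls m
  have hS0 : SS N G ls m 0 = 0 := SS_zero hN ls m
  have hKd : HasDerivAt (fun ε : ℂ => -(2 * Complex.I) * (kap N m ε * SS N G ls m ε))
      (-(2 * Complex.I) * (deriv (kap N m) 0 * SS N G ls m 0 + kap N m 0 *
        (CC ls * (-3 * Complex.I) *
      (∑ p ∈ range N, deriv (fun χ => wE N m χ * TV N (vls ls) χ) (2 * π * p / N) -
      2 * Complex.I * m * N * ∑ p ∈ range N, wE N m (2 * π * p / N) * ThV N (vls ls) p)))) 0 :=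
    ((kap_diff N m).hasDerivAt.mul hS).const_mul _
  have hsl := (hasDerivAt_iff_tendsto_slope.mp hKd).comp tendsto_real
  have hgl := (hasDerivAt_iff_tendsto_slope.mp (gf_deriv N)).comp tendsto_real
  have hJ' : Tendsto (fun ε : ℝ => JP N (vN N) (-Complex.exp (ε : ℂ)) m (pls ls))
      (𝓝[≠] 0) (𝓝 (JP N (vN N) (-1) m (pls ls))) :=
    (hJ.mono_left nhdsWithin_le_nhds).comp tendsto_real
  have hprod := hJ'.mul hgl
  have heq : (slope (fun ε : ℂ => -(2 * Complex.I) * (kap N m ε * SS N G ls m ε)) 0 ∘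
      fun ε : ℝ => (ε : ℂ)) =ᶠ[𝓝[≠] 0] fun ε : ℝ =>
      JP N (vN N) (-Complex.exp (ε : ℂ)) m (pls ls) *
        (slope (gf N) 0 ∘ fun ε : ℝ => (ε : ℂ)) ε := by
    filter_upwards [hK] with ε hε
    simp only [Function.comp, slope, vsub_eq_sub, smul_eq_mul, sub_zero, gf_zero, hS0, mul_zero]
    rw [← hε]
    ring
  have hlim := tendsto_nhds_unique (hsl.congr' heq) hprod
  rw [hS0, mul_zero, zero_add] at hlim
  have hnorm := congrArg norm hlim
  rw [norm_mul, norm_mul, norm_mul, norm_mul, kap_norm, norm_CC, norm_mul, norm_mul,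
    Complex.norm_I] at hnorm
  have n1 : ‖-(2 * Complex.I)‖ = 2 := by
    rw [norm_neg, norm_mul, Complex.norm_I]; norm_num
  have n2 : ‖(-3 : ℂ)‖ = 3 := by norm_num
  have n3 : ‖(-6 : ℂ)‖ = 6 := by norm_num
  rw [n1, n2, n3] at hnorm
  have hES : ES N (ls.map fun d => (d.1.2.1, d.2.2.1)) m =
      ∑ p ∈ range N, deriv (fun χ => wE N m χ * TV N (vls ls) χ) (2 * π * p / N) -
      2 * Complex.I * m * N * ∑ p ∈ range N, wE N m (2 * π * p / N) * ThV N (vls ls) p := rfl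
  rw [hES]
  show ‖JP N (vN N) (-1) m (pls ls)‖ = _
  linarith [hnorm]

end Pool.Agent.Y317.DR
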