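import Pool.Agent.Y481.DR.Defs
import Pool.Agent.Y967.CB.ExfC

/-!
# The exact formula at the root of unity for polynomials of the Casimir operator

Adapted from `Pool.Agent.Y967.CB` (task EXF of project CB3).
-/

set_option autoImplicit false

namespace Pool.Agent.Y317.DR

open Finset Filter Topology Pool.Agent.Y472 Pool.Agent.H550R3.Jones
open Pool.Agent.W711.HT hiding XX
open Pool.Agent.Y481.DR
open Pool.Agent.Y967.CB (PH PH_zero PH_diff prod_diff wE_diff chi vN_ne vN_pow trace_split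
  smul_list diff_list diff_mul diff_trace pI_add pI_high pH_sq ph_zero diag_mul_diag_apply
  ph_eq ph_eq' cb_eq cb_eq' ta_eq ta_eq' kap PHc chi_zero chi_deriv sum_odd gf gf_zero gf_deriv
  tendsto_real cb_ne norm_vN kap_diff kap_norm)
open scoped Real

/-- the polynomials -/
noncomputable def pls (ls : List (PV × PV)) : List (Polynomial ℂ × Polynomial ℂ) :=
  ls.map fun d => (d.1.1, d.2.1)

/-- the vertices -/
noncomputable def vls (ls : List (PV × PV)) : List (Vx × Vx) := ls.map fun d => (d.1.2.1, d.2.2.1)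

theorem trP_pls (N : ℕ) (w l : ℂ) (ls : List (PV × PV)) (D : ℕ) : trP N w l (pls ls) D =
    (pI N D * (ls.map fun x => MAP N w l x.1.1 * pI N D * MBP N w l D x.2.1 * pI N D).prod).trace := by
  unfold trP pls
  rw [List.map_map]
  rfl

theorem TV_vls (N : ℕ) (ls : List (PV × PV)) (χ : ℂ) : TV N (vls ls) χ =
    ((ls.map fun x => MAV N x.1.2.1 * MBV N χ x.2.2.1).prod).trace := by
  unfold TV vls
  rw [List.map_map]
  rfl

theorem ThV_vls (N : ℕ) (ls : List (PV × PV)) (p : ℕ) : ThV N (vls ls) p =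
    (pH N p * (ls.map fun x => MAV N x.1.2.1 * pH N p * MBV N (2 * π * p / N) x.2.2.1 *
      pH N p).prod).trace := by
  unfold ThV vls
  rw [List.map_map]
  rfl

theorem MA_block (N D p : ℕ) (hD : D + 1 + p = N) (w l : ℂ) (a : PV) :
    pI N D * MAP N w l a.1 * pH N p = 0 := by
  ext i j
  rw [pI, pH, diag_mul_diag_apply]
  show _ * (if j ≤ i then _ else _) * _ = (0 : ℂ)
  by_cases h : j ≤ i
  · have h' : (j : ℕ) ≤ i := h
    by_cases h2 : (i : ℕ) ≤ D
    · rw [if_neg (c := N ≤ (j : ℕ) + p) (by omega), mul_zero]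
    · rw [if_neg (c := (i : ℕ) ≤ D ∧ D < (i : ℕ) + N) (by omega), zero_mul, zero_mul]
  · rw [if_neg h, mul_zero, zero_mul]

theorem MB_block (N D p : ℕ) (hD : D + 1 + p = N) (w l : ℂ) (b : PV) :
    pI N D * MBP N w l D b.1 * pH N p = 0 := by
  ext i j
  rw [pI, pH, diag_mul_diag_apply]
  show _ * (if i ≤ j then (∏ t ∈ Ioc (i : ℕ) j, ph w l D t) * _ else _) * _ = (0 : ℂ)
  by_cases h2 : (i : ℕ) ≤ D
  · by_cases h3 : N ≤ (j : ℕ) + p
    · have : ∏ t ∈ Ioc (i : ℕ) j, ph w l D t = 0 :=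
        Finset.prod_eq_zero (Finset.mem_Ioc.mpr ⟨by omega, by omega⟩) (ph_zero w l D)
      rw [this, zero_mul]
      simp
    · rw [if_neg h3, mul_zero]
  · rw [if_neg (c := (i : ℕ) ≤ D ∧ D < (i : ℕ) + N) (by omega), zero_mul, zero_mul]

/-- the full trace and the trace on the high indices -/
theorem trP_low (N D p : ℕ) (hD : D + 1 + p = N) (w l : ℂ) (ls : List (PV × PV)) :
    trP N w l (pls ls) D = ((ls.map fun x => MAP N w l x.1.1 * MBP N w l D x.2.1).prod).trace -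
      (pH N p * (ls.map fun x => MAP N w l x.1.1 * pH N p * MBP N w l D x.2.1 * pH N p).prod).trace :=
  (trP_pls N w l ls D).trans (trace_split (pI N D) (pH N p) (pI_add N D p hD)
    (fun x : PV × PV => MAP N w l x.1.1) (fun x : PV × PV => MBP N w l D x.2.1) (pH_sq N p)
    (fun x => MA_block N D p hD w l x.1) (fun x => MB_block N D p hD w l x.2) ls)

/-! ### The continuation -/

/-- the matrix of `σ_1^a`, continued -/
noncomputable def MAe (N : ℕ) (G : PV → ℕ → ℕ → ℂ → ℂ) (ε : ℂ) (a : PV) :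
    Matrix (Fin N) (Fin N) ℂ :=
  fun i j => if j ≤ i then G a j i ε else 0

/-- the matrix of `σ_2^b`, continued -/
noncomputable def MBe (N : ℕ) (G : PV → ℕ → ℕ → ℂ → ℂ) (ε χ : ℂ) (b : PV) :
    Matrix (Fin N) (Fin N) ℂ :=
  fun i j => if i ≤ j then (∏ t ∈ Ioc (i : ℕ) j, PH (vN N) ε χ t) * G b i j ε else 0

/-- the full trace -/
noncomputable def Te (N : ℕ) (G : PV → ℕ → ℕ → ℂ → ℂ) (ls : List (PV × PV)) (ε χ : ℂ) : ℂ :=
  ((ls.map fun x => MAe N G ε x.1 * MBe N G ε χ x.2).prod).trace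

/-- the trace on the high indices -/
noncomputable def He (N : ℕ) (G : PV → ℕ → ℕ → ℂ → ℂ) (ls : List (PV × PV)) (p : ℕ) (ε χ : ℂ) : ℂ :=
  (pH N p * (ls.map fun x => MAe N G ε x.1 * pH N p * MBe N G ε χ x.2 * pH N p).prod).trace

theorem He_zero (N : ℕ) (G : PV → ℕ → ℕ → ℂ → ℂ) (ls : List (PV × PV)) (ε χ : ℂ) :
    He N G ls 0 ε χ = 0 := by
  have : pH N 0 = 0 := by
    rw [pH, ← Matrix.diagonal_zero]
    congr 1
    funext i
    have := i.2
    rw [if_neg (by omega)]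
  rw [He, this, Matrix.zero_mul, Matrix.trace_zero]

theorem map_congr' {ι β : Type*} (f g : ι → β) (ls : List ι) (h : ∀ x ∈ ls, f x = g x) :
    ls.map f = ls.map g := List.map_congr_left h

/-- the generic sum in terms of the continuation -/
theorem sum_eq (N : ℕ) (hN : 2 ≤ N) (G : PV → ℕ → ℕ → ℂ → ℂ) (ls : List (PV × PV)) (m : ℤ) (ε : ℂ)
    (hG : ∀ x ∈ ls, ∀ i j : ℕ, i ≤ j → j < N → G x.1 i j ε = gdP (vN N) (-Complex.exp ε) x.1.1 i j ∧
      G x.2 i j ε = gdP (vN N) (-Complex.exp ε) x.2.1 i j) :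
    ∑ D ∈ range (2 * N - 1), cb ((-Complex.exp ε) ^ 3 * vN N ^ (-2 - 2 * (D : ℤ))) *
        ta (vN N) (-Complex.exp ε) D ^ m * trP N (vN N) (-Complex.exp ε) (pls ls) D =
      -(2 * Complex.I) * (kap N m ε * ∑ p ∈ range N, (wE N m (chi N p ε) * Te N G ls ε (chi N p ε) +
        wE N m (chi N p ε) * He N G ls p ε (chi N p ε) * (Complex.exp (-6 * m * N * ε) - 1))) := by
  have hMA : ∀ x ∈ ls, MAP N (vN N) (-Complex.exp ε) x.1.1 = MAe N G ε x.1 := by
    intro x hx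
    funext i j
    show (if j ≤ i then gdP (vN N) (-Complex.exp ε) x.1.1 j i else 0) = if j ≤ i then _ else 0
    by_cases h : j ≤ i
    · rw [if_pos h, if_pos h, (hG x hx j i h i.2).1]
    · rw [if_neg h, if_neg h]
  have hMB : ∀ D p : ℕ, D + 1 + p = N → ∀ x ∈ ls,
      MBP N (vN N) (-Complex.exp ε) D x.2.1 = MBe N G ε (chi N p ε) x.2 := by
    intro D p hD x hx
    funext i j
    show (if i ≤ j then _ else 0) = if i ≤ j then _ else 0
    by_cases h : i ≤ j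
    · rw [if_pos h, if_pos h, (hG x hx i j h j.2).2]
      congr 1
      exact Finset.prod_congr rfl fun t _ => ph_eq N D p t hN hD ε
    · rw [if_neg h, if_neg h]
  have hMB' : ∀ D p : ℕ, D + 1 + p = N → ∀ x ∈ ls,
      MBP N (vN N) (-Complex.exp ε) (N + D) x.2.1 = MBe N G ε (chi N p ε) x.2 := by
    intro D p hD x hx
    funext i j
    show (if i ≤ j then _ else 0) = if i ≤ j then _ else 0
    by_cases h : i ≤ j
    · rw [if_pos h, if_pos h, (hG x hx i j h j.2).2]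
      congr 1
      exact Finset.prod_congr rfl fun t _ => ph_eq' N D p t hN hD ε
    · rw [if_neg h, if_neg h]
  have hlow : ∀ D p : ℕ, D + 1 + p = N → trP N (vN N) (-Complex.exp ε) (pls ls) D =
      Te N G ls ε (chi N p ε) - He N G ls p ε (chi N p ε) := by
    intro D p hD
    have k1 : (ls.map fun x => MAP N (vN N) (-Complex.exp ε) x.1.1 *
        MBP N (vN N) (-Complex.exp ε) D x.2.1) =
        ls.map fun x => MAe N G ε x.1 * MBe N G ε (chi N p ε) x.2 :=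
      List.map_congr_left fun x hx => by rw [hMA x hx, hMB D p hD x hx]
    have k2 : (ls.map fun x => MAP N (vN N) (-Complex.exp ε) x.1.1 * pH N p *
        MBP N (vN N) (-Complex.exp ε) D x.2.1 * pH N p) =
        ls.map fun x => MAe N G ε x.1 * pH N p * MBe N G ε (chi N p ε) x.2 * pH N p :=
      List.map_congr_left fun x hx => by rw [hMA x hx, hMB D p hD x hx]
    rw [trP_low N D p hD, Te, He, k1, k2]
  have hhigh : ∀ D p : ℕ, D + 1 + p = N → trP N (vN N) (-Complex.exp ε) (pls ls) (N + D) =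
      He N G ls p ε (chi N p ε) := by
    intro D p hD
    have k2 : (ls.map fun x => MAP N (vN N) (-Complex.exp ε) x.1.1 * pH N p *
        MBP N (vN N) (-Complex.exp ε) (N + D) x.2.1 * pH N p) =
        ls.map fun x => MAe N G ε x.1 * pH N p * MBe N G ε (chi N p ε) x.2 * pH N p :=
      List.map_congr_left fun x hx => by rw [hMA x hx, hMB' D p hD x hx]
    rw [trP_pls, He, pI_high N D p hD, k2]
  have e1 : 2 * N - 1 = N + (N - 1) := by omega
  rw [e1, Finset.sum_range_add]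
  have hlow' : ∑ D ∈ range N, cb ((-Complex.exp ε) ^ 3 * vN N ^ (-2 - 2 * (D : ℤ))) *
        ta (vN N) (-Complex.exp ε) D ^ m * trP N (vN N) (-Complex.exp ε) (pls ls) D =
      ∑ p ∈ range N, -(2 * Complex.I) * Complex.sin (chi N p ε) *
        (kap N m ε * Ea (2 * m) N (chi N p ε)) *
          (Te N G ls ε (chi N p ε) - He N G ls p ε (chi N p ε)) := by
    rw [← Finset.sum_range_reflect]
    refine Finset.sum_congr rfl fun p hp => ?_
    have hp' := Finset.mem_range.mp hp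
    have hD : (N - 1 - p) + 1 + p = N := by omega
    rw [cb_eq N _ p hN hD, ta_eq N _ p hN hD, hlow _ p hD]
  have hhigh' : ∑ D ∈ range (N - 1), cb ((-Complex.exp ε) ^ 3 * vN N ^ (-2 - 2 * ((N + D : ℕ) : ℤ))) *
        ta (vN N) (-Complex.exp ε) (N + D) ^ m * trP N (vN N) (-Complex.exp ε) (pls ls) (N + D) =
      ∑ p ∈ range N, -(2 * Complex.I) * Complex.sin (chi N p ε) *
        (kap N m ε * Ea (2 * m) N (chi N p ε) * Complex.exp (-6 * m * N * ε)) *
          He N G ls p ε (chi N p ε) := by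
    have e2 : ∑ p ∈ range N, -(2 * Complex.I) * Complex.sin (chi N p ε) *
        (kap N m ε * Ea (2 * m) N (chi N p ε) * Complex.exp (-6 * m * N * ε)) *
          He N G ls p ε (chi N p ε) =
        ∑ p ∈ range (N - 1), -(2 * Complex.I) * Complex.sin (chi N (p + 1) ε) *
        (kap N m ε * Ea (2 * m) N (chi N (p + 1) ε) * Complex.exp (-6 * m * N * ε)) *
          He N G ls (p + 1) ε (chi N (p + 1) ε) := by
      have : N = (N - 1) + 1 := by omega
      conv_lhs => rw [this, Finset.sum_range_succ']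
      rw [← this, He_zero]
      simp
    rw [e2, ← Finset.sum_range_reflect]
    refine Finset.sum_congr rfl fun p hp => ?_
    have hp' := Finset.mem_range.mp hp
    have hD : (N - 1 - 1 - p) + 1 + (p + 1) = N := by omega
    rw [cb_eq' N _ (p + 1) hN hD, ta_eq' N _ (p + 1) hN hD, hhigh _ (p + 1) hD]
  rw [hlow', hhigh', ← Finset.sum_add_distrib, Finset.mul_sum, Finset.mul_sum]
  refine Finset.sum_congr rfl fun p _ => ?_
  rw [wE]
  ring

variable {N : ℕ} {G : PV → ℕ → ℕ → ℂ → ℂ}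

theorem MAe_diff (hG : ∀ a i j, i ≤ j → j < N → DifferentiableAt ℂ (G a i j) 0) (a : PV) (χ₀ : ℂ)
    (i j : Fin N) : DifferentiableAt ℂ (fun x : ℂ × ℂ => MAe N G x.1 a i j) (0, χ₀) := by
  show DifferentiableAt ℂ (fun x : ℂ × ℂ => if j ≤ i then G a j i x.1 else 0) (0, χ₀)
  by_cases h : j ≤ i
  · simp only [if_pos h]
    have h1 : DifferentiableAt ℂ (G a j i) ((0, χ₀) : ℂ × ℂ).1 := hG a j i h i.2
    exact h1.comp (𝕜 := ℂ) ((0, χ₀) : ℂ × ℂ) differentiableAt_fst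
  · simp only [if_neg h]
    exact differentiableAt_const _

theorem MBe_diff (hG : ∀ a i j, i ≤ j → j < N → DifferentiableAt ℂ (G a i j) 0) (a : PV) (χ₀ : ℂ)
    (i j : Fin N) : DifferentiableAt ℂ (fun x : ℂ × ℂ => MBe N G x.1 x.2 a i j) (0, χ₀) := by
  show DifferentiableAt ℂ (fun x : ℂ × ℂ => if i ≤ j then
    (∏ t ∈ Ioc (i : ℕ) j, PH (vN N) x.1 x.2 t) * G a i j x.1 else 0) (0, χ₀)
  by_cases h : i ≤ j
  · simp only [if_pos h]
    have h1 : DifferentiableAt ℂ (G a i j) ((0, χ₀) : ℂ × ℂ).1 := hG a i j h j.2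
    have h2 := h1.comp (𝕜 := ℂ) ((0, χ₀) : ℂ × ℂ) differentiableAt_fst
    have h3 : DifferentiableAt ℂ (fun x : ℂ × ℂ => ∏ t ∈ Ioc (i : ℕ) j, PH (vN N) x.1 x.2 t)
        (0, χ₀) := prod_diff _ _ _ fun t => PH_diff _ _ _
    exact h3.mul h2
  · simp only [if_neg h]
    exact differentiableAt_const _

theorem Te_diff (hG : ∀ a i j, i ≤ j → j < N → DifferentiableAt ℂ (G a i j) 0)
    (ls : List (PV × PV)) (χ₀ : ℂ) :
    DifferentiableAt ℂ (fun x : ℂ × ℂ => Te N G ls x.1 x.2) (0, χ₀) := by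
  refine diff_trace (fun x : ℂ × ℂ =>
    (ls.map fun q : PV × PV => MAe N G x.1 q.1 * MBe N G x.1 x.2 q.2).prod) _ ?_
  refine diff_list (fun (x : ℂ × ℂ) (q : PV × PV) => MAe N G x.1 q.1 * MBe N G x.1 x.2 q.2) _ ?_ ls
  intro q
  exact diff_mul (fun x : ℂ × ℂ => MAe N G x.1 q.1) (fun x : ℂ × ℂ => MBe N G x.1 x.2 q.2) _
    (MAe_diff hG q.1 χ₀) (MBe_diff hG q.2 χ₀)

theorem He_diff (hG : ∀ a i j, i ≤ j → j < N → DifferentiableAt ℂ (G a i j) 0)
    (ls : List (PV × PV)) (p : ℕ) (χ₀ : ℂ) :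
    DifferentiableAt ℂ (fun x : ℂ × ℂ => He N G ls p x.1 x.2) (0, χ₀) := by
  have hc : ∀ i j, DifferentiableAt ℂ (fun _ : ℂ × ℂ => pH N p i j) (0, χ₀) :=
    fun i j => differentiableAt_const _
  refine diff_trace (fun x : ℂ × ℂ => pH N p *
    (ls.map fun q : PV × PV => MAe N G x.1 q.1 * pH N p * MBe N G x.1 x.2 q.2 * pH N p).prod) _ ?_
  refine diff_mul (fun _ : ℂ × ℂ => pH N p) (fun x : ℂ × ℂ =>
    (ls.map fun q : PV × PV => MAe N G x.1 q.1 * pH N p * MBe N G x.1 x.2 q.2 * pH N p).prod) _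
    hc ?_
  refine diff_list (fun (x : ℂ × ℂ) (q : PV × PV) =>
    MAe N G x.1 q.1 * pH N p * MBe N G x.1 x.2 q.2 * pH N p) _ ?_ ls
  intro q
  refine diff_mul (fun x : ℂ × ℂ => MAe N G x.1 q.1 * pH N p * MBe N G x.1 x.2 q.2)
    (fun _ : ℂ × ℂ => pH N p) _ ?_ hc
  refine diff_mul (fun x : ℂ × ℂ => MAe N G x.1 q.1 * pH N p)
    (fun x : ℂ × ℂ => MBe N G x.1 x.2 q.2) _ ?_ (MBe_diff hG q.2 χ₀)
  exact diff_mul (fun x : ℂ × ℂ => MAe N G x.1 q.1) (fun _ : ℂ × ℂ => pH N p) _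
    (MAe_diff hG q.1 χ₀) hc

/-! ### The values at `ε = 0` -/

theorem MAe_zero (hG0 : ∀ a i j, i ≤ j → j < N → G a i j 0 = a.2.2 * cV N a.2.1 i j)
    (a : PV) : MAe N G 0 a = a.2.2 • MAV N a.2.1 := by
  funext i j
  show (if j ≤ i then G a j i 0 else 0) = a.2.2 * (if j ≤ i then cV N a.2.1 j i else 0)
  by_cases h : j ≤ i
  · rw [if_pos h, if_pos h, hG0 a j i h i.2]
  · rw [if_neg h, if_neg h, mul_zero]

theorem MBe_zero (hN : 2 ≤ N)
    (hG0 : ∀ a i j, i ≤ j → j < N → G a i j 0 = a.2.2 * cV N a.2.1 i j) (χ : ℂ)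
    (a : PV) : MBe N G 0 χ a = a.2.2 • MBV N χ a.2.1 := by
  funext i j
  show (if i ≤ j then (∏ t ∈ Ioc (i : ℕ) j, PH (vN N) 0 χ t) * G a i j 0 else 0) =
    a.2.2 * (if i ≤ j then (∏ t ∈ Ioc (i : ℕ) j, Ph N χ t) * cV N a.2.1 i j else 0)
  by_cases h : i ≤ j
  · rw [if_pos h, if_pos h, hG0 a i j h j.2, Finset.prod_congr rfl fun t _ => PH_zero N t hN χ]
    ring
  · rw [if_neg h, if_neg h, mul_zero]

/-- the common factor -/
noncomputable def CC (ls : List (PV × PV)) : ℂ := (ls.map fun x => x.1.2.2 * x.2.2.2).prod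

theorem Te_zero (hN : 2 ≤ N)
    (hG0 : ∀ a i j, i ≤ j → j < N → G a i j 0 = a.2.2 * cV N a.2.1 i j) (ls : List (PV × PV)) (χ : ℂ) :
    Te N G ls 0 χ = CC ls * TV N (vls ls) χ := by
  have k : (ls.map fun x => MAe N G 0 x.1 * MBe N G 0 χ x.2) =
      ls.map fun x => (x.1.2.2 * x.2.2.2) • (MAV N x.1.2.1 * MBV N χ x.2.2.1) :=
    List.map_congr_left fun x _ => by
      rw [MAe_zero hG0, MBe_zero hN hG0, smul_mul_smul_comm]
  rw [Te, k, smul_list, Matrix.trace_smul, smul_eq_mul, CC, TV_vls]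

theorem He_zero' (hN : 2 ≤ N)
    (hG0 : ∀ a i j, i ≤ j → j < N → G a i j 0 = a.2.2 * cV N a.2.1 i j) (ls : List (PV × PV)) (p : ℕ) :
    He N G ls p 0 (2 * π * p / N) = CC ls * ThV N (vls ls) p := by
  have k : (ls.map fun x => MAe N G 0 x.1 * pH N p * MBe N G 0 (2 * π * p / N) x.2 * pH N p) =
      ls.map fun x => (x.1.2.2 * x.2.2.2) •
        (MAV N x.1.2.1 * pH N p * MBV N (2 * π * p / N) x.2.2.1 * pH N p) :=
    List.map_congr_left fun x _ => by
      rw [MAe_zero hG0, MBe_zero hN hG0]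
      simp only [Matrix.smul_mul, Matrix.mul_smul, smul_smul]
      rw [mul_comm]
  rw [He, k, smul_list, Matrix.mul_smul, Matrix.trace_smul, smul_eq_mul, CC, ThV_vls]

/-! ### The symmetry -/

/-- the matrix of `σ_2^b` as function of `cos χ` -/
noncomputable def MBc (N : ℕ) (G : PV → ℕ → ℕ → ℂ → ℂ) (ε y : ℂ) (b : PV) :
    Matrix (Fin N) (Fin N) ℂ :=
  fun i j => if i ≤ j then (∏ t ∈ Ioc (i : ℕ) j, PHc (vN N) ε y t) * G b i j ε else 0

/-- the full trace as function of `cos χ` -/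
noncomputable def Tc (N : ℕ) (G : PV → ℕ → ℕ → ℂ → ℂ) (ls : List (PV × PV)) (ε y : ℂ) : ℂ :=
  ((ls.map fun x => MAe N G ε x.1 * MBc N G ε y x.2).prod).trace

theorem Te_eq (N : ℕ) (G : PV → ℕ → ℕ → ℂ → ℂ) (ls : List (PV × PV)) (ε χ : ℂ) :
    Te N G ls ε χ = Tc N G ls ε (Complex.cos χ) := rfl

variable {N : ℕ} {G : PV → ℕ → ℕ → ℂ → ℂ}

/-- the sum -/
noncomputable def SS (N : ℕ) (G : PV → ℕ → ℕ → ℂ → ℂ) (ls : List (PV × PV)) (m : ℤ) (ε : ℂ) : ℂ :=
  ∑ p ∈ range N, (wE N m (chi N p ε) * Te N G ls ε (chi N p ε) +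
        wE N m (chi N p ε) * He N G ls p ε (chi N p ε) * (Complex.exp (-6 * m * N * ε) - 1))

theorem SS_zero (hN : 2 ≤ N) (ls : List (PV × PV)) (m : ℤ) : SS N G ls m 0 = 0 := by
  have h := sum_odd hN m (Tc N G ls 0)
  refine Eq.trans ?_ h
  rw [SS]
  refine Finset.sum_congr rfl fun p _ => ?_
  rw [chi_zero, mul_zero, Complex.exp_zero, sub_self, mul_zero, add_zero, Te_eq]

theorem SS_deriv (hN : 2 ≤ N) (hG : ∀ a i j, i ≤ j → j < N → DifferentiableAt ℂ (G a i j) 0)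
    (hG0 : ∀ a i j, i ≤ j → j < N → G a i j 0 = a.2.2 * cV N a.2.1 i j)
    (ls : List (PV × PV)) (m : ℤ) :
    HasDerivAt (SS N G ls m) (CC ls * (-3 * Complex.I) *
      (∑ p ∈ range N, deriv (fun χ => wE N m χ * TV N (vls ls) χ) (2 * π * p / N) -
      2 * Complex.I * m * N * ∑ p ∈ range N, wE N m (2 * π * p / N) * ThV N (vls ls) p)) 0 := by
  set Φ : ℂ × ℂ → ℂ := fun x => wE N m x.2 * Te N G ls x.1 x.2 with hΦ
  have hd : ∀ χ : ℂ, DifferentiableAt ℂ Φ (0, χ) := fun χ => by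
    have h1 : DifferentiableAt ℂ (wE N m) ((0, χ) : ℂ × ℂ).2 := wE_diff N m χ
    exact (h1.comp (𝕜 := ℂ) ((0, χ) : ℂ × ℂ) differentiableAt_snd).mul (Te_diff hG ls χ)
  -- derivatives in both variables
  have h2 : ∀ χ : ℂ, HasDerivAt (fun ε => Φ (ε, χ)) (fderiv ℂ Φ (0, χ) (1, 0)) 0 := fun χ => by
    have hγ : HasDerivAt (fun ε : ℂ => (ε, χ)) ((1 : ℂ), (0 : ℂ)) 0 :=
      (hasDerivAt_id (0 : ℂ)).prodMk (hasDerivAt_const (0 : ℂ) χ)
    exact (hd χ).hasFDerivAt.comp_hasDerivAt_of_eq (0 : ℂ) hγ rfl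
  have h3 : ∀ χ : ℂ, HasDerivAt (fun χ' => Φ (0, χ')) (fderiv ℂ Φ (0, χ) (0, 1)) χ := fun χ => by
    have hγ : HasDerivAt (fun χ' : ℂ => ((0 : ℂ), χ')) ((0 : ℂ), (1 : ℂ)) χ :=
      (hasDerivAt_const χ (0 : ℂ)).prodMk (hasDerivAt_id χ)
    exact (hd χ).hasFDerivAt.comp_hasDerivAt_of_eq χ hγ rfl
  have h3' : ∀ χ : ℂ, fderiv ℂ Φ (0, χ) (0, 1) =
      CC ls * deriv (fun χ => wE N m χ * TV N (vls ls) χ) χ := fun χ => by
    rw [← deriv_const_mul_field, ← (h3 χ).deriv]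
    congr 1
    funext χ'
    show wE N m χ' * Te N G ls 0 χ' = _
    rw [Te_zero hN hG0]
    ring
  have h1 : ∀ p : ℕ, HasDerivAt (fun ε => Φ (ε, chi N p ε))
      (fderiv ℂ Φ (0, 2 * π * p / N) (1, 0) +
        -3 * Complex.I * (CC ls * deriv (fun χ => wE N m χ * TV N (vls ls) χ) (2 * π * p / N))) 0 := by
    intro p
    have hγ : HasDerivAt (fun ε : ℂ => (ε, chi N p ε)) ((1 : ℂ), -3 * Complex.I) 0 :=
      (hasDerivAt_id (0 : ℂ)).prodMk (chi_deriv N p)
    have h := (hd (2 * π * p / N)).hasFDerivAt.comp_hasDerivAt_of_eq (0 : ℂ) hγ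
      (by rw [chi_zero])
    have e : ((1 : ℂ), -3 * Complex.I) = (1, 0) + (-3 * Complex.I) • ((0 : ℂ), (1 : ℂ)) := by
      ext <;> simp
    rw [e, map_add, map_smul, smul_eq_mul, h3'] at h
    exact h
  have hz : ∑ p ∈ range N, fderiv ℂ Φ (0, 2 * π * p / N) (1, 0) = 0 := by
    have ha : HasDerivAt (fun ε => ∑ p ∈ range N, Φ (ε, 2 * π * p / N))
        (∑ p ∈ range N, fderiv ℂ Φ (0, 2 * π * p / N) (1, 0)) 0 :=
      HasDerivAt.fun_sum fun p _ => h2 _
    have hb : (fun ε : ℂ => ∑ p ∈ range N, Φ (ε, 2 * π * p / N)) = fun _ => 0 := by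
      funext ε
      exact sum_odd hN m (Tc N G ls ε)
    rw [hb] at ha
    exact ha.unique (hasDerivAt_const _ _)
  -- the second term
  have h4 : ∀ p : ℕ, HasDerivAt (fun ε => wE N m (chi N p ε) * He N G ls p ε (chi N p ε) *
      (Complex.exp (-6 * m * N * ε) - 1))
      (wE N m (2 * π * p / N) * (CC ls * ThV N (vls ls) p) * (-6 * m * N)) 0 := by
    intro p
    have hu : DifferentiableAt ℂ (fun x : ℂ × ℂ => wE N m x.2 * He N G ls p x.1 x.2)
        (0, 2 * π * p / N) := by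
      have h1 : DifferentiableAt ℂ (wE N m) ((0, 2 * π * p / N) : ℂ × ℂ).2 := wE_diff N m _
      exact (h1.comp (𝕜 := ℂ) ((0, 2 * π * p / N) : ℂ × ℂ) differentiableAt_snd).mul
        (He_diff hG ls p _)
    have hγ : HasDerivAt (fun ε : ℂ => (ε, chi N p ε)) ((1 : ℂ), -3 * Complex.I) 0 :=
      (hasDerivAt_id (0 : ℂ)).prodMk (chi_deriv N p)
    have hu' := hu.hasFDerivAt.comp_hasDerivAt_of_eq (0 : ℂ) hγ (by rw [chi_zero])
    have hv : HasDerivAt (fun ε : ℂ => Complex.exp (-6 * m * N * ε) - 1) (-6 * m * N) 0 := by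
      have h5 := (((hasDerivAt_id (0 : ℂ)).const_mul (-6 * (m : ℂ) * N)).cexp).sub_const 1
      simp only [id, mul_zero, Complex.exp_zero, mul_one, one_mul] at h5
      exact h5
    have h6 := hu'.mul hv
    have e0 : ((fun x : ℂ × ℂ => wE N m x.2 * He N G ls p x.1 x.2) ∘
        fun ε : ℂ => (ε, chi N p ε)) 0 = wE N m (2 * π * p / N) * (CC ls * ThV N (vls ls) p) := by
      show wE N m (chi N p 0) * He N G ls p 0 (chi N p 0) = _
      rw [chi_zero, He_zero' hN hG0]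
    rw [e0] at h6
    simp only [mul_zero, Complex.exp_zero, sub_self, zero_add] at h6
    exact h6
  have h7 : HasDerivAt (SS N G ls m) (∑ p ∈ range N,
      (fderiv ℂ Φ (0, 2 * π * p / N) (1, 0) +
        -3 * Complex.I * (CC ls * deriv (fun χ => wE N m χ * TV N (vls ls) χ) (2 * π * p / N)) +
      wE N m (2 * π * p / N) * (CC ls * ThV N (vls ls) p) * (-6 * m * N))) 0 :=
    HasDerivAt.fun_sum fun p _ => (h1 p).add (h4 p)
  have e7 : ∑ p ∈ range N, (fderiv ℂ Φ (0, 2 * π * p / N) (1, 0) +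
        -3 * Complex.I * (CC ls * deriv (fun χ => wE N m χ * TV N (vls ls) χ) (2 * π * p / N)) +
      wE N m (2 * π * p / N) * (CC ls * ThV N (vls ls) p) * (-6 * m * N)) =
      CC ls * (-3 * Complex.I) *
      (∑ p ∈ range N, deriv (fun χ => wE N m χ * TV N (vls ls) χ) (2 * π * p / N) -
      2 * Complex.I * m * N * ∑ p ∈ range N, wE N m (2 * π * p / N) * ThV N (vls ls) p) := by
    rw [Finset.sum_add_distrib, Finset.sum_add_distrib, hz, zero_add, mul_sub, Finset.mul_sum,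
      Finset.mul_sum, Finset.mul_sum, sub_eq_add_neg, ← Finset.sum_neg_distrib]
    congr 1
    · exact Finset.sum_congr rfl fun p _ => by ring
    · refine Finset.sum_congr rfl fun p _ => ?_
      have hI : Complex.I ^ 2 = -1 := Complex.I_sq
      linear_combination (-6 * CC ls * m * N * wE N m (2 * π * p / N) * ThV N (vls ls) p) * hI
  rw [← e7]
  exact h7


end Pool.Agent.Y317.DR
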